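import Pool.Agent.Helper26.LN6.Vm
import Pool.Agent.Helper32.LN6.ChiF
import Pool.Agent.Helper84.LN6.Delta

/-!
# LN6 leaf E1 (MP_730da0_ag): `SV`

For `x` in a largest class of `s 0` and `z` in a largest class of `s 2` (same block), `v (T m) x z = b`, `4 ≤ m < k`.
Sum rule over the `H`-orbit of `(x, z)`: `zeta`, `zeta'`, `s 4` do not see these pairs; `v (T m)` is the same for all such
pairs (uniqueness of the largest class, class constancy, `s 0` moves the blocks).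
-/

open scoped Classical
open Finset

namespace LN6
namespace WSys

variable {k : ℕ} {Γ F : Type} [Group Γ] [MulAction Γ F] [Fintype F] {W : WSys k Γ F} {b : ℝ}

/-- `B (s 2)` is unique in its block. -/
theorem Ax.one2 (A : W.Ax b) (hO : W.SOne) {y z : F} (hy : y ∈ W.B (W.s 2)) (hz : z ∈ W.B (W.s 2))
    (hR : W.R y z) : W.E (W.s 2) y z := by
  have hk := A.k5
  have e : W.s 2 = W.delta * W.s 0 * W.delta⁻¹ := (W.delta_s0_conj hk).symm
  have hy' : W.delta⁻¹ • y ∈ W.B (W.s 0) := by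
    rw [e, B_conj'] at hy; exact hy
  have hz' : W.delta⁻¹ • z ∈ W.B (W.s 0) := by
    rw [e, B_conj'] at hz; exact hz
  have h := hO _ _ hy' hz' (W.R_smul _ hR)
  have h2 := (E_conj (W := W) W.delta (W.s 0)).2 h
  rw [← e, smul_inv_smul, smul_inv_smul] at h2
  exact h2

theorem not_E0_of_B2 (A : W.Ax b) (hF2 : W.SF2) {x z : F} (hx : x ∈ W.B (W.s 0)) (hz : z ∈ W.B (W.s 2)) :
    ¬ W.E (W.s 0) x z := fun h => hF2 z (A.B_of_E W.arc_s0 h hx) hz

theorem not_E2_of_B0 (A : W.Ax b) (hF2 : W.SF2) {x z : F} (hx : x ∈ W.B (W.s 0)) (hz : z ∈ W.B (W.s 2)) :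
    ¬ W.E (W.s 2) z x := fun h =>
  hF2 x hx (A.B_of_E (W.arc_s 2 (by have := A.k5; omega)) h hz)

/-- `zeta'` does not see the pairs in `B (s 0) × B (s 2)`. -/
theorem Ax.zeta'_zero (A : W.Ax b) (hF3' : W.SF3') (hF2 : W.SF2) {x z : F} (hx : x ∈ W.B (W.s 0))
    (hz : z ∈ W.B (W.s 2)) (hR : W.R x z) : W.v W.zeta' x z = 0 := by
  have hk := A.k5
  have hE0 := not_E0_of_B2 A hF2 hx hz
  have hE2 := not_E2_of_B0 A hF2 hx hz
  have hn : x ≠ z := fun h => hE0 (Or.inl h)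
  have hgc : W.gg⁻¹ * W.s 0 = W.s 0 * W.gg⁻¹ := (W.gg_commute_s0 hk).inv_left.eq
  set u := W.gg⁻¹ • x with hu
  set u' := W.gg⁻¹ • z with hu'
  have hRu : W.R u u' := W.R_smul _ hR
  have hnu : u ≠ u' := by simpa [hu, hu'] using hn
  have hEu : ¬ W.E (W.s 0) u u' := fun h => hE0 ((E_smul hgc).1 h)
  -- `u'` is in a largest class of `s 3`
  have e3 : W.s 3 = W.gg⁻¹ * W.s 2 * W.gg⁻¹⁻¹ := by
    have h := W.s2_mul_gg hk
    rw [inv_inv, mul_assoc, h]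
    group
  have hu3 : u' ∈ W.B (W.s 3) := by
    rw [e3, B_conj', inv_inv, hu', smul_inv_smul]
    exact hz
  have hE3 : ¬ W.E (W.s 3) u' u := by
    intro h
    rw [e3, hu, hu', E_conj] at h
    exact hE2 h
  have h0 : W.v (W.T 3) u u' = 0 := by
    rw [W.v_symm]
    exact hF3' 3 3 (by norm_num) le_rfl (by omega) u' hu3 u (W.R_symm hRu) hE3
  have h1 : W.v (W.s 0) u u' = 0 := A.v_zero_of_not_E W.arc_s0 hRu hEu
  have hT3 : W.T 3 = W.T 2 * W.lam 2 := W.T_succ 2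
  have hc : W.T 2 * W.lam 2 = W.lam 2 * W.T 2 :=
    (W.Bm_commute_lam (m := 2) (by omega) (W.T_mem_Bm 2)).eq
  have h2 := W.v_mul (W.T 2) (W.lam 2) u u' hRu hnu hc
  rw [← hT3, h0, W.v_T_two hRu hnu, h1] at h2
  have h3 : W.v W.zeta' x z = W.v (W.lam 2) u u' := W.v_conj'' (W.lam 2) W.gg hR hn
  rw [h3]
  linarith

/-- `zeta` does not see the pairs in `B (s 0) × B (s 2)`. -/
theorem Ax.zeta_zero (A : W.Ax b) (hF3' : W.SF3') (hF2 : W.SF2) {x z : F} (hx : x ∈ W.B (W.s 0))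
    (hz : z ∈ W.B (W.s 2)) (hR : W.R x z) : W.v W.zeta x z = 0 := by
  have hk := A.k5
  have hn : x ≠ z := fun h => not_E0_of_B2 A hF2 hx hz (Or.inl h)
  have h1 : W.v (W.delta * W.zeta * W.delta⁻¹) (W.delta • x) (W.delta • z) = W.v W.zeta x z :=
    W.v_conj W.zeta W.delta x z hR hn
  rw [W.delta_zeta_conj hk] at h1
  rw [← h1, W.v_symm]
  refine A.zeta'_zero hF3' hF2 ?_ ?_ (W.R_symm (W.R_smul _ hR))
  · have := (B_conj (W := W) W.delta (W.s 2) z).2 hz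
    rwa [W.delta_s2_conj hk] at this
  · have := (B_conj (W := W) W.delta (W.s 0) x).2 hx
    rwa [W.delta_s0_conj hk] at this

/-- `v (T m)` takes the same value on all pairs of `B (s 0) × B (s 2)`. -/
theorem Ax.SV_const (A : W.Ax b) (hF2 : W.SF2) (hO : W.SOne) {m : ℕ} (h4 : 4 ≤ m) (hm : m < k) {x z x' z' : F}
    (hx : x ∈ W.B (W.s 0)) (hz : z ∈ W.B (W.s 2)) (hR : W.R x z) (hx' : x' ∈ W.B (W.s 0))
    (hz' : z' ∈ W.B (W.s 2)) (hR' : W.R x' z') : W.v (W.T m) x' z' = W.v (W.T m) x z := by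
  have hk := A.k5
  obtain ⟨j, hj⟩ := A.blk x x'
  have hn : x ≠ z := fun h => not_E0_of_B2 A hF2 hx hz (Or.inl h)
  have hc0 : W.s 0 ^ j * W.s 0 = W.s 0 * W.s 0 ^ j := ((Commute.refl (W.s 0)).pow_left j).eq
  have hc2 : W.s 0 ^ j * W.s 2 = W.s 2 * W.s 0 ^ j :=
    ((W.commute_s 0 2 (by omega) (by omega)).pow_left j).eq
  set y := W.s 0 ^ j • x with hy
  set w := W.s 0 ^ j • z with hw
  have hyB : y ∈ W.B (W.s 0) := (B_smul hc0 x).2 hx
  have hwB : w ∈ W.B (W.s 2) := (B_smul hc2 z).2 hz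
  have hRyw : W.R y w := W.R_smul _ hR
  have e0 : W.v (W.T m) y w = W.v (W.T m) x z :=
    T_smul_Bm hm.le (pow_mem (W.s_mem_Bm (by omega)) j) hR hn
  have hE : W.E (W.s 0) y x' := hO _ _ hyB hx' hj
  have hRwz' : W.R w z' := W.R_trans (W.R_symm hRyw) (W.R_trans hj hR')
  have hE' : W.E (W.s 2) w z' := A.one2 hO hwB hz' hRwz'
  -- first `w → z'`
  have e1 : W.v (W.T m) z' y = W.v (W.T m) w y :=
    A.CC (by omega) hm (i := 2) (by omega) hE' (W.R_symm hRyw) (not_E2_of_B0 A hF2 hyB hwB)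
  have e2 : W.v (W.T m) x' z' = W.v (W.T m) y z' :=
    A.CC (by omega) hm (i := 0) (by omega) hE (W.R_trans hj hR') (not_E0_of_B2 A hF2 hyB hz')
  rw [e2, W.v_symm, e1, W.v_symm, e0]

theorem SV_of (A : W.Ax b) (hF3 : W.SF3) (hF3' : W.SF3') (hF2 : W.SF2) (hO : W.SOne) : W.SV b := by
  have hk := A.k5
  intro m h4 hm x hx z hz hR
  have hn : x ≠ z := fun h => not_E0_of_B2 A hF2 hx hz (Or.inl h)
  set O := orb W.H x z with hOdef
  have hG : W.Good O := good_orb W.H hR hn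
  have hst : W.H ≤ stab Γ O := le_stab_orb W.H x z
  have hmem : ∀ p ∈ O, p.1 ∈ W.B (W.s 0) ∧ p.2 ∈ W.B (W.s 2) ∧ W.R p.1 p.2 := by
    intro p hp
    obtain ⟨g, hg, rfl⟩ := mem_orb.1 hp
    exact ⟨(B_smul (W.H_commute_s0 hk hg).eq x).2 hx, (B_smul (W.H_commute_s2 hk hg).eq z).2 hz,
      W.R_smul g hR⟩
  have hz1 : W.chi O W.zeta = 0 :=
    sum_eq_zero fun p hp => A.zeta_zero hF3' hF2 (hmem p hp).1 (hmem p hp).2.1 (hmem p hp).2.2
  have hz2 : W.chi O W.zeta' = 0 :=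
    sum_eq_zero fun p hp => A.zeta'_zero hF3' hF2 (hmem p hp).1 (hmem p hp).2.1 (hmem p hp).2.2
  have hs4 : 6 ≤ k → W.chi O (W.s 4) = 0 := fun h6 =>
    sum_eq_zero fun p hp => hF3 4 (by norm_num) (by omega) p.1 (hmem p hp).1 p.2 (hmem p hp).2.2
      (not_E0_of_B2 A hF2 (hmem p hp).1 (hmem p hp).2.1)
  have key : ∀ j, 4 ≤ j → j ≤ k → W.chi O (W.T j) = W.chi O (W.T 4) := by
    intro j hj4 hjk
    rw [chi_T_H hG hst j hj4 hjk, hz1, hz2]
    rcases Nat.lt_or_ge j 6 with h | h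
    · have : j = 4 ∨ j = 5 := by omega
      rcases this with rfl | rfl <;> norm_num
    · rw [hs4 (by omega)]
      ring
  have h1 : W.chi O (W.T m) = O.card * b := by
    rw [key m h4 hm.le, ← key k (by omega) le_rfl, chi_T_k A hG]
  have h2 : W.chi O (W.T m) = O.card * W.v (W.T m) x z := by
    unfold chi
    rw [sum_congr rfl fun p hp => A.SV_const hF2 hO h4 hm hx hz hR (hmem p hp).1 (hmem p hp).2.1
      (hmem p hp).2.2]
    simp
  have h3 : (0 : ℝ) < O.card := by exact_mod_cast orb_card_pos W.H x z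
  rw [h2] at h1
  exact mul_left_cancel₀ h3.ne' h1

end WSys
end LN6
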